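import Pool.Agent.KS6_96.He.Final

/-!
# Reflection-subgroup positivity fails in type B for all n at least 4 and in type C for all n at least 3

For every `n ≥ 4` and both types `B` and `C` there is a Hessenberg space `H` for which the character
`L_2(H)` of the dot action takes the value `(2 + 3n - n²)/2 < 0` at the central element `-1`. In
type `C` there is also such a space for `n = 3`. A combination of coset characters with
non-negative coefficients takes no negative value.

In both types `H` is the space of all matrices of `𝔤` whose entry in row `a` and column `b` vanishes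
when `b` is one of the first `n - 2` positions and `a` comes at least two positions after `b`
(with the positions ordered `1, …, n, (0), -n, …, -1`). The positive roots `α` with
`𝔤_{-α} ⊆ H` are the simple roots, `x_{n-1} + x_n`, `x_{n-1}` and `x_n` (`2x_{n-1}` and `2x_n` in
type `C`).
-/

namespace Pool.Agent.Results.MP_513174_co.BothTypes

open Pool.Agent.KS6_96.He
open Pool.Agent.KS6_96.He.Lib (negOne)

/-- For every `n ≥ 4` there is a Hessenberg space `H` of `so_{2n+1}(ℂ)` with
`L_2(H)(-1) = (2 + 3n - n²)/2 < 0`, so that `L_2(H)` is not a combination with non-negative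
coefficients of characters `π_R` (for any subgroups `R`, in particular for reflection subgroups).
The same holds for `sp_{2n}(ℂ)`, and for `sp_{2n}(ℂ)` such a space also exists for `n = 3`. -/
theorem result :
    (∀ n : ℕ, 4 ≤ n → ∃ H : Submodule ℂ (Matrix (Unit ⊕ (Fin n ⊕ Fin n))
        (Unit ⊕ (Fin n ⊕ Fin n)) ℂ), IsHessenbergSpace (so n) torB .B H ∧
      leftChar .B (hessRoots (so n) torB .B H) 2 (negOne n) = (2 + 3 * (n : ℂ) - n ^ 2) / 2 ∧
      ¬ IsCosetPositive (leftChar .B (hessRoots (so n) torB .B H) 2)) ∧
    (∀ n : ℕ, 4 ≤ n → ∃ H : Submodule ℂ (Matrix (Fin n ⊕ Fin n) (Fin n ⊕ Fin n) ℂ),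
      IsHessenbergSpace (sp n) torC .C H ∧
      leftChar .C (hessRoots (sp n) torC .C H) 2 (negOne n) = (2 + 3 * (n : ℂ) - n ^ 2) / 2 ∧
      ¬ IsCosetPositive (leftChar .C (hessRoots (sp n) torC .C H) 2)) ∧
    (∃ H : Submodule ℂ (Matrix (Fin 3 ⊕ Fin 3) (Fin 3 ⊕ Fin 3) ℂ),
      IsHessenbergSpace (sp 3) torC .C H ∧
      ¬ IsCosetPositive (leftChar .C (hessRoots (sp 3) torC .C H) 2)) :=
  ⟨main_B, main_C, main_C3⟩

end Pool.Agent.Results.MP_513174_co.BothTypes
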